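import Pool.Agent.helper57.MS.Spec

set_option autoImplicit false
set_option linter.unusedVariables false

open Finset

namespace Pool.Agent.helper57.MS

open Finset Pool.Agent.RRank Pool.Agent.helper26.IM

theorem TH1R (hHMI : HMI_stmt) (hHUL : HUL_stmt) (hIN2 : IN2_stmt) (hSTAR : STAR_stmt)
    (hITR : ITR_stmt) : TH1R_stmt := by
  classical
  intro d l hd R
  by_contra hno
  have h : ∀ n : ℕ, ∃ (K : Type) (_ : Field K) (_ : (l.factorial : K) ≠ 0) (Q : Fin d → Type)
      (T : ((α : Fin d) → Q α) → K), ((n + 1 : ℕ) : ℕ∞) ≤ rank (cl R) T ∧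
      ∀ X : (α : Fin d) → Finset (Q α), (∀ α, (X α).card ≤ l) → rank R (minor T X) < l := by
    intro n
    by_contra hn
    apply hno
    refine ⟨n + 1, fun K iK hl Q T hT => ?_⟩
    by_contra hX
    apply hn
    refine ⟨K, iK, hl, Q, T, hT, fun X hXc => ?_⟩
    by_contra hlt
    exact hX ⟨X, hXc, not_lt.1 hlt⟩
  choose K iK hl Q T hT hmin using h
  have hne : ∀ n α, Nonempty (Q n α) := by
    intro n α
    by_contra hemp
    rw [not_nonempty_iff] at hemp
    refine not_sumOf_of_le_rank (hT n) (Nat.succ_pos n) ?_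
    exact ⟨fun i => i.elim0, fun i => i.elim0, fun x => (hemp.false (x α)).elim⟩
  obtain ⟨G, hG⟩ := hIN2 (Filter.hyperfilter ℕ) K d l Q
  set AA : Finset (Finset (Fin d)) := univ.filter (fun A => ∀ P' ∈ R, OddP A P') with hAA
  have hH : ∀ A ∈ AA, ∀ n, H l A (T n) = 0 := fun A hA n =>
    hHMI (K n) d l (Q n) R (T n) (hmin n) A (Finset.mem_filter.1 hA).2
  have hU := hHUL (Filter.hyperfilter ℕ) K d l Q T
  have hTE : (fun x : (α : Fin d) → (n : ℕ) → Q n α =>
      UF.mk (Filter.hyperfilter ℕ) (fun n => T n (fun α => x α n))) ∈ G.F.E univ := by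
    rw [hG]
    refine ⟨T, fun n => ?_, fun x => rfl⟩
    intro x y hxy
    have : x = y := funext fun α => hxy α (by simp)
    rw [this]
  have hS := hSTAR (UF (Filter.hyperfilter ℕ) K) d l (fun α => (n : ℕ) → Q n α) G (hU.2 hl) univ AA _ hTE
    (fun A hA => by rw [Finset.inter_univ]; exact hU.1 A (hH A hA))
  have hcl : {P : Finpartition (univ : Finset (Fin d)) | ∀ A ∈ AA, OddP A P} = cl R := by
    ext P
    constructor
    · intro hP A hA
      exact hP A (Finset.mem_filter.2 ⟨Finset.mem_univ _, hA⟩)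
    · intro hP A hA
      exact hP A (Finset.mem_filter.1 hA).2
  rw [hcl] at hS
  obtain ⟨N, hN⟩ := hITR (Filter.hyperfilter ℕ) K d Q G.F hG hd hne (cl R) T hS
  have hge : ∀ᶠ n in (Filter.hyperfilter ℕ : Filter ℕ), N ≤ n :=
    (Filter.eventually_ge_atTop N).filter_mono Nat.hyperfilter_le_atTop
  obtain ⟨n, h1, h2⟩ := (hN.and hge).exists
  exact not_sumOf_of_le_rank (hT n) (Nat.lt_succ_of_le h2) h1

end Pool.Agent.helper57.MS
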