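import Pool.Agent.helper57.MS.Spec2

set_option autoImplicit false
set_option linter.unusedVariables false

open Finset

namespace Pool.Agent.helper57.MS

open Pool.Agent.RRank Pool.Agent.helper26.IM

theorem TH4 (hTWO : TWO_stmt) (hTH5 : TH5_stmt) : TH4_stmt := by
  intro d hd 𝓚 P₁ P₂
  refine hTH5 d hd 𝓚 _ fun f _ => ?_
  have e : Rf ({P₁, P₂} : Set (IndexPartition d)) f = bipF (f P₁) ∪ bipF (f P₂) := by
    ext P
    constructor
    · rintro ⟨P', hP', hP⟩
      rcases hP' with h | h
      · left; rw [← h]; exact hP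
      · right; rw [← Set.mem_singleton_iff.1 h]; exact hP
    · rintro (h | h)
      · exact ⟨P₁, Or.inl rfl, h⟩
      · exact ⟨P₂, Or.inr rfl, h⟩
  rw [e]
  exact hTWO d hd 𝓚 (f P₁) (f P₂)

end Pool.Agent.helper57.MS
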