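import Pool.Agent.helper36.MS.Defs
import Pool.Agent.helper25.HY.MOB
import Pool.Agent.helper62.HY.HDI
import Pool.Agent.helper46.HY.KAP

/-!
# Module mm:LOSS (block mm: of the density proof, MP_af9036_an): bounded loss at a zero of `E_t`

Paper: /team-store/MP_af9036_SHORTEND_helper94.md, section 5.
-/

set_option autoImplicit false

open Complex Metric Set Filter Topology MeasureTheory
open Pool.Agent.helper98.ILF Pool.Agent.helper16.Multibrot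
open HY

noncomputable section

namespace MS

theorem LOSS_mem {x : ℂ} : x ∈ UD ↔ ‖x‖ < 1 := by
  unfold UD
  rw [mem_ball_zero_iff]

theorem LOSS_pow {n : ℕ} (hn : 1 ≤ n) {x : ℂ} (hx : x ∈ UD) : x ^ n ∈ UD := by
  rw [LOSS_mem] at hx ⊢
  rw [norm_pow]
  exact pow_lt_one₀ (norm_nonneg x) hx (by omega)

theorem LOSS_Bm_maps {n : ℕ} (hn : 1 ≤ n) {b : ℂ} (hb : b ∈ UD) : MapsTo (Bm n b) UD UD := by
  intro x hx
  exact ((HY.MOB b hb).1 (x ^ n) (LOSS_pow hn hx)).2.1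

theorem LOSS_Bm_diff {n : ℕ} (hn : 1 ≤ n) {b : ℂ} (hb : b ∈ UD) : DifferentiableOn ℂ (Bm n b) UD := by
  obtain ⟨-, -, -, -, hdS, -⟩ := HY.MOB b hb
  exact hdS.comp (differentiable_id.pow n).differentiableOn (fun x hx => LOSS_pow hn hx)

theorem LOSS_E_maps {n : ℕ} (hn : 1 ≤ n) (β : ℕ → ℂ) : ∀ t : ℕ, (∀ j < t, β j ∈ UD) → MapsTo (E n β t) UD UD
  | 0, _ => fun x hx => hx
  | (t + 1), h => fun x hx =>
      LOSS_E_maps hn β t (fun j hj => h j (by omega)) (LOSS_Bm_maps hn (h t (by omega)) hx)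

theorem LOSS_E_diff {n : ℕ} (hn : 1 ≤ n) (β : ℕ → ℂ) : ∀ t : ℕ, (∀ j < t, β j ∈ UD) →
    DifferentiableOn ℂ (E n β t) UD
  | 0, _ => differentiableOn_id
  | (t + 1), h => (LOSS_E_diff hn β t (fun j hj => h j (by omega))).comp
      (LOSS_Bm_diff hn (h t (by omega))) (LOSS_Bm_maps hn (h t (by omega)))

/-- Schwarz-Pick with two points. -/
theorem LOSS_SP {f : ℂ → ℂ} (hf : DifferentiableOn ℂ f UD) (hm : MapsTo f UD UD) {a x : ℂ}
    (ha : a ∈ UD) (hx : x ∈ UD) : ‖T (f a) (f x)‖ ≤ ‖T a x‖ := by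
  obtain ⟨h1, hTa, hSa, -, hdS, -⟩ := HY.MOB a ha
  obtain ⟨h2, hTf, -, hdT, -⟩ := HY.MOB (f a) (hm ha)
  have hg : DifferentiableOn ℂ (fun u => T (f a) (f (S a u))) (ball 0 1) := by
    refine hdT.comp (hf.comp hdS fun u hu => (h1 u hu).2.1) fun u hu => hm (h1 u hu).2.1
  have hgm : MapsTo (fun u => T (f a) (f (S a u))) (ball 0 1) (closedBall 0 1) := by
    intro u hu
    have := (h2 (f (S a u)) (hm (h1 u hu).2.1)).1
    exact ball_subset_closedBall this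
  have hg0 : (fun u => T (f a) (f (S a u))) 0 = 0 := by
    show T (f a) (f (S a 0)) = 0
    rw [hSa, hTf]
  have hu : T a x ∈ ball (0 : ℂ) 1 := (h1 x hx).1
  have h3 := Complex.norm_le_norm_of_mapsTo_ball hg hgm hg0 (z := T a x) (by simpa using hu)
  have h4 : S a (T a x) = x := (h1 x hx).2.2.1
  rw [h4] at h3
  exact h3

theorem LOSS_geom (n : ℕ) (r : ℝ) (hr : 0 ≤ r) (hr1 : r ≤ 1) : 1 - r ^ (2 * n) ≤ n * (1 - r ^ 2) := by
  have h : 1 - r ^ (2 * n) = (∑ i ∈ Finset.range n, (r ^ 2) ^ i) * (1 - r ^ 2) := by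
    rw [pow_mul]
    have := geom_sum_mul_neg (r ^ 2) n
    linarith
  rw [h]
  refine mul_le_mul_of_nonneg_right ?_ (by nlinarith)
  calc ∑ i ∈ Finset.range n, (r ^ 2) ^ i ≤ ∑ _i ∈ Finset.range n, (1 : ℝ) :=
        Finset.sum_le_sum fun i _ => pow_le_one₀ (by positivity) (by nlinarith)
    _ = n := by simp

/-- the hyperbolic derivative of one level. -/
theorem LOSS_hd {n : ℕ} (hn : 1 ≤ n) {b e : ℂ} (hb : b ∈ UD) (he : e ∈ UD) :
    ‖deriv (Bm n b) e‖ = n * ‖e‖ ^ (n - 1) / (1 - ‖e‖ ^ (2 * n)) * (1 - ‖Bm n b e‖ ^ 2) := by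
  have h1 := ((HY.HDI HY.MOB).1 b (fun z => z ^ n) e hb (differentiableAt_pow n) (LOSS_pow hn he)).2
  have h2 : hd (fun z : ℂ => z ^ n) e = n * ‖e‖ ^ (n - 1) / (1 - ‖e‖ ^ (2 * n)) := by
    unfold hd
    rw [deriv_pow_field, norm_mul, norm_pow, norm_pow, ← pow_mul]
    congr 1
    · simp
    · rw [mul_comm 2 n]
  rw [h2] at h1
  have h3 : 0 < 1 - ‖Bm n b e‖ ^ 2 := by
    have := LOSS_mem.1 (LOSS_Bm_maps hn hb he)
    nlinarith [norm_nonneg (Bm n b e)]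
  have h4 : hd (Bm n b) e = ‖deriv (Bm n b) e‖ / (1 - ‖Bm n b e‖ ^ 2) := rfl
  have h5 : hd (fun z => S b (z ^ n)) e = hd (Bm n b) e := rfl
  rw [← h1, h5, h4, div_mul_cancel₀ _ h3.ne']

/-- the factor of one level, far case. -/
theorem LOSS_far {n : ℕ} (hn : 1 ≤ n) {q : ℝ} (hq1 : q < 1) {a e : ℂ} (ha : a ∈ UD)
    (he : e ∈ UD) (hae : ‖T a e‖ ≤ q) (hfar : 1 - ‖a‖ ≤ (1 - q) ^ 2 / 4) :
    Real.exp (-(8 * n ^ 2 / (1 - q) ^ 4 * (1 - ‖a‖) ^ 2)) ≤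
      n * ‖e‖ ^ (n - 1) * (1 - ‖e‖ ^ 2) / (1 - ‖e‖ ^ (2 * n)) := by
  have ha1 := LOSS_mem.1 ha
  have he1 := LOSS_mem.1 he
  have hq2 : 0 < 1 - q := by linarith
  obtain ⟨hm, -⟩ := HY.MOB a ha
  set u : ℂ := T a e with hu
  have huU : u ∈ UD := (hm e he).1
  have hSu : S a u = e := (hm e he).2.2.1
  have hna : -a ∈ UD := by rw [LOSS_mem, norm_neg]; exact ha1
  have hid := ((HY.MOB (-a) hna).2.2.2.2.2.2.2.1) u huU
  have hTS : T (-a) u = e := by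
    rw [← hSu]
    simp [S, T]
  rw [hTS, norm_neg] at hid
  have hden : 1 - q ≤ ‖1 - (starRingEnd ℂ) (-a) * u‖ := by
    have h4 := norm_sub_norm_le (1 : ℂ) ((starRingEnd ℂ) (-a) * u)
    rw [norm_one, norm_mul, RCLike.norm_conj, norm_neg] at h4
    nlinarith [norm_nonneg a, norm_nonneg u]
  have h1 : (1 - ‖e‖ ^ 2) * (1 - q) ^ 2 ≤ 1 - ‖a‖ ^ 2 := by
    have h5 : (1 - ‖e‖ ^ 2) * ‖1 - (starRingEnd ℂ) (-a) * u‖ ^ 2 = (1 - ‖a‖ ^ 2) * (1 - ‖u‖ ^ 2) := by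
      rw [hid]
      have hd0 : 0 < ‖1 - (starRingEnd ℂ) (-a) * u‖ := lt_of_lt_of_le hq2 hden
      exact div_mul_cancel₀ _ (by positivity)
    have h6 : (1 - ‖e‖ ^ 2) * (1 - q) ^ 2 ≤ (1 - ‖e‖ ^ 2) * ‖1 - (starRingEnd ℂ) (-a) * u‖ ^ 2 := by
      refine mul_le_mul_of_nonneg_left ?_ (by nlinarith [norm_nonneg e])
      exact pow_le_pow_left₀ hq2.le hden 2
    have h7 : (1 - ‖a‖ ^ 2) * (1 - ‖u‖ ^ 2) ≤ (1 - ‖a‖ ^ 2) * 1 := by
      refine mul_le_mul_of_nonneg_left ?_ (by nlinarith [norm_nonneg a])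
      nlinarith [norm_nonneg u]
    linarith
  have h2 : (1 - ‖e‖) * (1 - q) ^ 2 ≤ 2 * (1 - ‖a‖) := by
    have h8 : (1 - ‖e‖) * (1 - q) ^ 2 ≤ (1 - ‖e‖ ^ 2) * (1 - q) ^ 2 := by
      refine mul_le_mul_of_nonneg_right ?_ (by positivity)
      nlinarith [norm_nonneg e]
    nlinarith [norm_nonneg a]
  have h3 : 1 - ‖e‖ ≤ 2 * (1 - ‖a‖) / (1 - q) ^ 2 := by
    rwa [le_div_iff₀ (by positivity)]
  have hhalf : 1 / 2 ≤ ‖e‖ := by
    have h10 : (1 - ‖e‖) * (1 - q) ^ 2 ≤ 1 / 2 * (1 - q) ^ 2 := by nlinarith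
    have := le_of_mul_le_mul_right h10 (by positivity)
    linarith
  have hK := HY.KAP n ‖e‖ hn hhalf he1
  have hpos : 0 < 1 - ‖e‖ ^ (2 * n) := by
    have : ‖e‖ ^ (2 * n) < 1 := pow_lt_one₀ (norm_nonneg e) he1 (by omega)
    linarith
  rw [le_div_iff₀ hpos]
  have hle : Real.exp (-(8 * n ^ 2 / (1 - q) ^ 4 * (1 - ‖a‖) ^ 2)) ≤
      Real.exp (-(2 * n ^ 2 * (1 - ‖e‖) ^ 2)) := by
    apply Real.exp_le_exp.2
    have h11 : (1 - ‖e‖) ^ 2 ≤ (2 * (1 - ‖a‖) / (1 - q) ^ 2) ^ 2 :=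
      pow_le_pow_left₀ (by linarith) h3 2
    have h12 : 2 * (n : ℝ) ^ 2 * (1 - ‖e‖) ^ 2 ≤ 2 * (n : ℝ) ^ 2 * (2 * (1 - ‖a‖) / (1 - q) ^ 2) ^ 2 :=
      mul_le_mul_of_nonneg_left h11 (by positivity)
    have h13 : 2 * (n : ℝ) ^ 2 * (2 * (1 - ‖a‖) / (1 - q) ^ 2) ^ 2 =
        8 * n ^ 2 / (1 - q) ^ 4 * (1 - ‖a‖) ^ 2 := by
      field_simp
      ring
    linarith
  calc Real.exp (-(8 * n ^ 2 / (1 - q) ^ 4 * (1 - ‖a‖) ^ 2)) * (1 - ‖e‖ ^ (2 * n))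
      ≤ Real.exp (-(2 * n ^ 2 * (1 - ‖e‖) ^ 2)) * (1 - ‖e‖ ^ (2 * n)) :=
        mul_le_mul_of_nonneg_right hle hpos.le
    _ ≤ Real.exp (-(2 * n ^ 2 * (1 - ‖e‖) ^ 2)) *
        (Real.exp (2 * n ^ 2 * (1 - ‖e‖) ^ 2) * (n * ‖e‖ ^ (n - 1) * (1 - ‖e‖ ^ 2))) :=
        mul_le_mul_of_nonneg_left hK (Real.exp_pos _).le
    _ = n * ‖e‖ ^ (n - 1) * (1 - ‖e‖ ^ 2) := by
        rw [← mul_assoc, ← Real.exp_add]
        simp

/-- the factor of one level, near case. -/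
theorem LOSS_near {n : ℕ} (hn : 1 ≤ n) {r₀ : ℝ} (hr : 0 < r₀) {e : ℂ} (he : e ∈ UD)
    (hre : r₀ ≤ ‖e‖) :
    r₀ ^ (n - 1) ≤ n * ‖e‖ ^ (n - 1) * (1 - ‖e‖ ^ 2) / (1 - ‖e‖ ^ (2 * n)) := by
  have he1 := LOSS_mem.1 he
  have hpos : 0 < 1 - ‖e‖ ^ (2 * n) := by
    have : ‖e‖ ^ (2 * n) < 1 := pow_lt_one₀ (norm_nonneg e) he1 (by omega)
    linarith
  rw [le_div_iff₀ hpos]
  have h1 := LOSS_geom n ‖e‖ (norm_nonneg e) he1.le
  calc r₀ ^ (n - 1) * (1 - ‖e‖ ^ (2 * n)) ≤ ‖e‖ ^ (n - 1) * (n * (1 - ‖e‖ ^ 2)) :=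
        mul_le_mul (pow_le_pow_left₀ hr.le hre _) h1 hpos.le (by positivity)
    _ = n * ‖e‖ ^ (n - 1) * (1 - ‖e‖ ^ 2) := by ring

theorem LOSS : LOSS_stmt := by
  intro n hn A q r₀ hq0 hq1 hr₀
  have hn1 : 1 ≤ n := by omega
  have hq2 : 0 < 1 - q := by linarith
  set δ : ℝ := (1 - q) ^ 2 / 4 with hδ
  have hδ0 : 0 < δ := by rw [hδ]; positivity
  -- replace `r₀` by `r₁ = min r₀ 1`
  set r₁ : ℝ := min r₀ 1 with hr₁
  have hr1p : 0 < r₁ := lt_min hr₀ one_pos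
  have hr1l : r₁ ≤ 1 := min_le_right _ _
  set Λ : ℝ := -Real.log (r₁ ^ (n - 1)) with hΛ
  have hrn : 0 < r₁ ^ (n - 1) := by positivity
  have hΛ0 : 0 ≤ Λ := by
    rw [hΛ]
    have : r₁ ^ (n - 1) ≤ 1 := pow_le_one₀ hr1p.le hr1l
    have := Real.log_nonpos hrn.le this
    linarith
  have hexpΛ : Real.exp (-Λ) = r₁ ^ (n - 1) := by
    rw [hΛ, neg_neg, Real.exp_log hrn]
  set C : ℝ := 8 * n ^ 2 / (1 - q) ^ 4 + Λ / δ ^ 2 with hC
  have hC0 : 0 ≤ C := by rw [hC]; positivity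
  refine ⟨Real.exp (-(C * A)), Real.exp_pos _, ?_⟩
  rintro β a t e ⟨hβ, ha, haβ⟩ he hE hT hsum hnear
  have key : ∀ (t : ℕ) (e : ℂ), (∀ j < t, β j ∈ UD) → (∀ j ≤ t, a j ∈ UD) →
      (∀ j < t, a j = Bm n (β j) (a (j + 1))) → e ∈ UD → E n β t e = 0 → ‖T (a t) e‖ ≤ q →
      (∀ j, 1 ≤ j → j ≤ t → δ < 1 - ‖a j‖ → r₀ ≤ ‖E n β j 0‖) →
      Real.exp (-(C * ∑ j ∈ Finset.Icc 1 t, (1 - ‖a j‖) ^ 2)) ≤
        ‖deriv (E n β t) e‖ * (1 - ‖e‖ ^ 2) := by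
    intro t
    induction t with
    | zero =>
      intro e _ _ _ he hE _ _
      have he0 : e = 0 := hE
      have hd : deriv (E n β 0) e = 1 := deriv_id e
      rw [hd, he0]
      simp
    | succ t ih =>
      intro e hβ ha haβ he hE hT hnear
      have hb : β t ∈ UD := hβ t (by omega)
      have hat : a (t + 1) ∈ UD := ha (t + 1) le_rfl
      set e' : ℂ := Bm n (β t) e with he'
      have he'U : e' ∈ UD := LOSS_Bm_maps hn1 hb he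
      have hE' : E n β t e' = 0 := hE
      have hT' : ‖T (a t) e'‖ ≤ q := by
        rw [haβ t (by omega), he']
        exact (LOSS_SP (LOSS_Bm_diff hn1 hb) (LOSS_Bm_maps hn1 hb) hat he).trans hT
      have h1 := ih e' (fun j hj => hβ j (by omega)) (fun j hj => ha j (by omega))
        (fun j hj => haβ j (by omega)) he'U hE' hT' (fun j hj hj' => hnear j hj (by omega))
      have hEd : HasDerivAt (E n β t) (deriv (E n β t) e') e' :=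
        ((LOSS_E_diff hn1 β t (fun j hj => hβ j (by omega)) e' he'U).differentiableAt
          (isOpen_ball.mem_nhds he'U)).hasDerivAt
      have hBd : HasDerivAt (Bm n (β t)) (deriv (Bm n (β t)) e) e :=
        ((LOSS_Bm_diff hn1 hb e he).differentiableAt (isOpen_ball.mem_nhds he)).hasDerivAt
      have hder : deriv (E n β (t + 1)) e = deriv (E n β t) e' * deriv (Bm n (β t)) e :=
        (hEd.comp e hBd).deriv
      have hhd := LOSS_hd hn1 hb he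
      set K : ℝ := n * ‖e‖ ^ (n - 1) * (1 - ‖e‖ ^ 2) / (1 - ‖e‖ ^ (2 * n)) with hK
      have hprod : ‖deriv (E n β (t + 1)) e‖ * (1 - ‖e‖ ^ 2) =
          (‖deriv (E n β t) e'‖ * (1 - ‖e'‖ ^ 2)) * K := by
        rw [hder, norm_mul, hhd, hK, ← he']
        ring
      have hKle : Real.exp (-(C * (1 - ‖a (t + 1)‖) ^ 2)) ≤ K := by
        rcases le_or_gt (1 - ‖a (t + 1)‖) δ with hlt | hge
        · refine le_trans ?_ (LOSS_far hn1 hq1 hat he hT hlt)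
          apply Real.exp_le_exp.2
          have : 0 ≤ Λ / δ ^ 2 * (1 - ‖a (t + 1)‖) ^ 2 := by positivity
          rw [hC]
          nlinarith
        · have h2 : r₀ ≤ ‖E n β (t + 1) 0‖ := hnear (t + 1) (by omega) le_rfl hge
          have h3 : ‖E n β (t + 1) 0‖ ≤ ‖e‖ := by
            have h0 : (0 : ℂ) ∈ UD := by rw [LOSS_mem, norm_zero]; exact one_pos
            have h4 := LOSS_SP (LOSS_E_diff hn1 β (t + 1) hβ) (LOSS_E_maps hn1 β (t + 1) hβ) he h0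
            rw [hE] at h4
            simpa [T] using h4
          have h5 : r₁ ≤ ‖e‖ := (min_le_left _ _).trans (h2.trans h3)
          refine le_trans ?_ (LOSS_near hn1 hr1p he h5)
          rw [← hexpΛ]
          apply Real.exp_le_exp.2
          have h6 : δ ^ 2 ≤ (1 - ‖a (t + 1)‖) ^ 2 := pow_le_pow_left₀ hδ0.le hge.le 2
          have h7 : Λ ≤ Λ / δ ^ 2 * (1 - ‖a (t + 1)‖) ^ 2 := by
            calc Λ = Λ / δ ^ 2 * δ ^ 2 := by field_simp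
              _ ≤ _ := mul_le_mul_of_nonneg_left h6 (by positivity)
          have h8 : 0 ≤ 8 * (n : ℝ) ^ 2 / (1 - q) ^ 4 * (1 - ‖a (t + 1)‖) ^ 2 := by positivity
          rw [hC]
          nlinarith
      rw [hprod, Finset.sum_Icc_succ_top (by omega)]
      have h9 : Real.exp (-(C * (∑ j ∈ Finset.Icc 1 t, (1 - ‖a j‖) ^ 2 + (1 - ‖a (t + 1)‖) ^ 2))) =
          Real.exp (-(C * ∑ j ∈ Finset.Icc 1 t, (1 - ‖a j‖) ^ 2)) *
            Real.exp (-(C * (1 - ‖a (t + 1)‖) ^ 2)) := by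
        rw [← Real.exp_add]
        congr 1
        ring
      rw [h9]
      exact mul_le_mul h1 hKle (Real.exp_pos _).le ((Real.exp_pos _).le.trans h1)
  refine le_trans ?_ (key t e hβ ha haβ he hE hT hnear)
  apply Real.exp_le_exp.2
  have := mul_le_mul_of_nonneg_left hsum hC0
  linarith

end MS
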